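import Pool.Agent.helper55.Book.Bridge
import Pool.Agent.helper85.RG.Final

set_option autoImplicit false

open Pool.Agent.helper55.Ramsey

namespace Pool.Agent.Results.MP_b5ba9b_co.Draw

/-- The strong Ramsey game on the complete graph on `ℕ` with target `K₆ ∖ K₄` is a draw: neither
player has a winning strategy. -/
theorem result : IsDraw (⊤ : SimpleGraph ℕ) target :=
  isDraw_of_safe Pool.Agent.helper85.RG.safe_empty

end Pool.Agent.Results.MP_b5ba9b_co.Draw
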